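import Mathlib

/-!
# Measures on complete Boolean algebras from countably generated subalgebras

A complete Boolean algebra which carries a continuous outer measure and all of whose countably
generated complete subalgebras admit measures admits a measure.

Proof. (1) For every `ε > 0` the intersection number of the set of all `b` with `m b ≥ ε` is
positive: otherwise there are countably many finite subsets which witness that it is zero, and they
generate a complete subalgebra with a measure; on this subalgebra the measure is bounded below on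
the elements with `m b ≥ ε`, by the continuity of `m`, a contradiction. (2) By the theorem of
Kelley (proved here from the extension theorem of Riesz) there is a finitely additive
strictly positive measure `ν`. (3) Its countably additive part is strictly positive by the
continuity of `m`.
-/

set_option autoImplicit false

open Filter Topology

namespace Pool.Agent.Results.MP_2d6919_lc.MeasureFromSubalgebras

universe u

/-- The subalgebra `S` of the complete Boolean algebra `B` is a complete subalgebra: it is closed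
under all suprema and infima taken in `B`. -/
def IsCompleteSub {B : Type u} [CompleteBooleanAlgebra B] (S : BooleanSubalgebra B) : Prop :=
  ∀ T : Set B, T ⊆ S → sSup T ∈ S ∧ sInf T ∈ S

/-- The subalgebra `S` is countably generated: it is the smallest complete subalgebra which
contains some countable subset of `B`. -/
def IsCountablyGenerated {B : Type u} [CompleteBooleanAlgebra B] (S : BooleanSubalgebra B) : Prop :=
  ∃ G : Set B, G.Countable ∧
    IsLeast {S' : BooleanSubalgebra B | IsCompleteSub S' ∧ G ⊆ (S' : Set B)} S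

/-- `μ` is a measure on the Boolean algebra `A`: finite, strictly positive and countably
additive. -/
structure IsMeasure {A : Type u} [BooleanAlgebra A] (μ : A → ℝ) : Prop where
  nonneg : ∀ a, 0 ≤ μ a
  pos : ∀ a, a ≠ ⊥ → 0 < μ a
  sum : ∀ (a : ℕ → A) (s : A), Pairwise (Function.onFun Disjoint a) → IsLUB (Set.range a) s →
    HasSum (fun n => μ (a n)) (μ s)

/-- `m` is a continuous outer measure on the complete Boolean algebra `B`. -/
structure IsContinuousOuterMeasure {B : Type u} [CompleteBooleanAlgebra B] (m : B → ℝ) :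
    Prop where
  nonneg : ∀ a, 0 ≤ m a
  zero : m ⊥ = 0
  pos : ∀ a, a ≠ ⊥ → 0 < m a
  mono : ∀ a b, a ≤ b → m a ≤ m b
  subadd : ∀ a b, m (a ⊔ b) ≤ m a + m b
  cont : ∀ a : ℕ → B, Antitone a → ⨅ n, a n = ⊥ → Tendsto (fun n => m (a n)) atTop (𝓝 0)

section finadd

variable {A : Type u} [BooleanAlgebra A]

/-- finitely additive -/
structure FinAdd (μ : A → ℝ) : Prop where
  nonneg : ∀ a, 0 ≤ μ a
  add : ∀ a b, Disjoint a b → μ (a ⊔ b) = μ a + μ b

theorem FinAdd.bot {μ : A → ℝ} (h : FinAdd μ) : μ ⊥ = 0 := by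
  have := h.add ⊥ ⊥ disjoint_bot_left
  rw [sup_bot_eq] at this
  linarith

theorem FinAdd.split {μ : A → ℝ} (h : FinAdd μ) (a b : A) : μ a = μ (a ⊓ b) + μ (a \ b) := by
  rw [← h.add _ _ disjoint_inf_sdiff, sup_inf_sdiff]

theorem FinAdd.mono {μ : A → ℝ} (h : FinAdd μ) {a b : A} (hab : a ≤ b) : μ a ≤ μ b := by
  have h1 := h.split b a
  rw [inf_eq_right.2 hab] at h1
  have := h.nonneg (b \ a)
  linarith

theorem FinAdd.sub {μ : A → ℝ} (h : FinAdd μ) (a b : A) : μ (a ⊔ b) ≤ μ a + μ b := by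
  have h1 := h.add a (b \ a) disjoint_sdiff_self_right
  rw [sup_sdiff_self_right] at h1
  have := h.mono (sdiff_le : b \ a ≤ b)
  linarith

/-- the combinatorial inequality -/
theorem FinAdd.comb {ι : Type*} [DecidableEq ι] {μ : A → ℝ} (h : FinAdd μ) (b : ι → A)
    (w : ι → ℝ) (F : Finset ι) : ∀ (y : A) (K : ℝ),
    (∀ x, x ≠ ⊥ → x ≤ y → ∀ F' ⊆ F, (∀ i ∈ F', x ≤ b i) → ∑ i ∈ F', w i ≤ K) →
    ∑ i ∈ F, w i * μ (b i ⊓ y) ≤ K * μ y := by
  induction F using Finset.induction_on with
  | empty =>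
    intro y K hK
    rw [Finset.sum_empty]
    by_cases hy : y = ⊥
    · rw [hy, h.bot, mul_zero]
    · have := hK y hy le_rfl ∅ (Finset.Subset.refl _) (by simp)
      rw [Finset.sum_empty] at this
      exact mul_nonneg this (h.nonneg y)
  | insert j F hj ih =>
    intro y K hK
    have h1 := ih (y ⊓ b j) (K - w j) (by
      intro x hx hxy F' hF' hxF'
      have := hK x hx (hxy.trans inf_le_left) (insert j F') (Finset.insert_subset_insert _ hF') (by
        intro i hi
        rcases Finset.mem_insert.1 hi with rfl | hi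
        · exact hxy.trans inf_le_right
        · exact hxF' i hi)
      rw [Finset.sum_insert (fun h => hj (hF' h))] at this
      linarith)
    have h2 := ih (y \ b j) K (by
      intro x hx hxy F' hF' hxF'
      exact hK x hx (hxy.trans sdiff_le) F' (hF'.trans (Finset.subset_insert _ _)) hxF')
    have h3 : ∀ i, μ (b i ⊓ y) = μ (b i ⊓ (y ⊓ b j)) + μ (b i ⊓ (y \ b j)) := by
      intro i
      rw [h.split (b i ⊓ y) (b j), inf_assoc, inf_sdiff_assoc]
    rw [Finset.sum_insert hj, Finset.sum_congr rfl fun i _ => by rw [h3 i, mul_add],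
      Finset.sum_add_distrib, inf_comm (b j) y]
    have h4 := h.split y (b j)
    have h5 : K * μ y = K * μ (y ⊓ b j) + K * μ (y \ b j) := by rw [h4, mul_add]
    rw [sub_mul] at h1
    linarith

end finadd

section kelley

variable {B : Type u} [BooleanAlgebra B]

open Order

open Classical in
/-- the two-valued measure of a prime ideal -/
noncomputable def phi (I : Ideal B) (b : B) : ℝ := if b ∈ I then 0 else 1

theorem phi_nonneg (I : Ideal B) (b : B) : 0 ≤ phi I b := by
  unfold phi; split_ifs <;> norm_num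

theorem phi_le (I : Ideal B) (b : B) : phi I b ≤ 1 := by
  unfold phi; split_ifs <;> norm_num

theorem phi_top {I : Ideal B} (hI : I.IsPrime) : phi I ⊤ = 1 := by
  have := hI.toIsProper
  rw [phi, if_neg (Ideal.IsProper.top_notMem this)]

theorem phi_add {I : Ideal B} (hI : I.IsPrime) {a b : B} (hab : Disjoint a b) :
    phi I (a ⊔ b) = phi I a + phi I b := by
  have h1 : a ∈ I ∨ b ∈ I := by
    apply hI.mem_or_mem
    rw [hab.eq_bot]
    exact I.bot_mem
  have h2 : a ⊔ b ∈ I ↔ a ∈ I ∧ b ∈ I := Ideal.sup_mem_iff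
  by_cases ha : a ∈ I <;> by_cases hb : b ∈ I
  · simp [phi, h2, ha, hb]
  · simp [phi, h2, ha, hb]
  · simp [phi, h2, ha, hb]
  · exact absurd h1 (by simp [ha, hb])

theorem exists_prime {x : B} (hx : x ≠ ⊥) : ∃ I : Ideal B, I.IsPrime ∧ x ∉ I := by
  obtain ⟨J, hJ, -, hd⟩ := DistribLattice.prime_ideal_of_disjoint_filter_ideal
    (F := PFilter.principal x) (I := Ideal.principal (⊥ : B)) (by
      rw [Set.disjoint_left]
      intro y hy hy'
      have h1 : x ≤ y := hy
      have h2 : y ≤ ⊥ := hy'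
      exact hx (le_bot_iff.1 (h1.trans h2)))
  refine ⟨J, hJ, fun h => ?_⟩
  exact Set.disjoint_left.1 hd (show x ∈ PFilter.principal x from le_rfl) h

/-- the theorem of Kelley -/
theorem kelley [Nontrivial B] (S : Set B) (δ : ℝ)
    (H : ∀ (F : Finset B) (w : B → ℝ), (∀ b ∈ F, b ∈ S) → (∀ b, 0 ≤ w b) →
      ∃ x : B, x ≠ ⊥ ∧ ∃ F' ⊆ F, (∀ i ∈ F', x ≤ i) ∧ δ * ∑ b ∈ F, w b ≤ ∑ b ∈ F', w b) :
    ∃ ν : B → ℝ, FinAdd ν ∧ ν ⊤ = 1 ∧ ∀ b ∈ S, δ ≤ ν b := by
  classical
  let val : Ideal B → (B →₀ ℝ) →ₗ[ℝ] ℝ := fun I => Finsupp.linearCombination ℝ (phi I)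
  let dval : Ideal B → (B →₀ ℝ) →ₗ[ℝ] ℝ := fun I =>
    Finsupp.linearCombination ℝ (fun b => phi I b - δ)
  have hval : ∀ I b r, val I (Finsupp.single b r) = r * phi I b := by
    intro I b r
    simp [val, Finsupp.linearCombination_single]
  have hdval : ∀ I b r, dval I (Finsupp.single b r) = r * (phi I b - δ) := by
    intro I b r
    simp [dval, Finsupp.linearCombination_single]
  let s : PointedCone ℝ (B →₀ ℝ) :=
    { carrier := {f | ∃ c : B →₀ ℝ, (∀ b, 0 ≤ c b) ∧ (∀ b ∈ c.support, b ∈ S) ∧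
        ∀ I : Ideal B, I.IsPrime → dval I c ≤ val I f}
      add_mem' := by
        rintro f g ⟨c, h1, h2, h3⟩ ⟨d, k1, k2, k3⟩
        refine ⟨c + d, fun b => ?_, fun b hb => ?_, fun I hI => ?_⟩
        · rw [Finsupp.add_apply]; exact add_nonneg (h1 b) (k1 b)
        · rcases Finset.mem_union.1 (Finsupp.support_add hb) with h | h
          · exact h2 b h
          · exact k2 b h
        · rw [map_add, map_add]; exact add_le_add (h3 I hI) (k3 I hI)
      zero_mem' := ⟨0, by simp, by simp, fun I _ => by rw [map_zero, map_zero]⟩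
      smul_mem' := by
        rintro ⟨r, hr⟩ f ⟨c, h1, h2, h3⟩
        refine ⟨r • c, fun b => ?_, fun b hb => ?_, fun I hI => ?_⟩
        · rw [Finsupp.smul_apply, smul_eq_mul]; exact mul_nonneg hr (h1 b)
        · exact h2 b (Finsupp.support_smul hb)
        · have e : ((⟨r, hr⟩ : NNReal) • f : B →₀ ℝ) = r • f := rfl
          show dval I (r • c) ≤ val I ((⟨r, hr⟩ : NNReal) • f : B →₀ ℝ)
          rw [e, map_smul, map_smul, smul_eq_mul, smul_eq_mul]
          exact mul_le_mul_of_nonneg_left (h3 I hI) hr }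
  have hs : ∀ f : B →₀ ℝ, f ∈ s ↔ ∃ c : B →₀ ℝ, (∀ b, 0 ≤ c b) ∧ (∀ b ∈ c.support, b ∈ S) ∧
        ∀ I : Ideal B, I.IsPrime → dval I c ≤ val I f := fun f => Iff.rfl
  -- nonnegative elements
  have hs0 : ∀ f : B →₀ ℝ, (∀ I : Ideal B, I.IsPrime → 0 ≤ val I f) → f ∈ s := by
    intro f hf
    rw [hs]
    exact ⟨0, by simp, by simp, fun I hI => by rw [map_zero]; exact hf I hI⟩
  -- the key property
  have key : ∀ c : B →₀ ℝ, (∀ b, 0 ≤ c b) → (∀ b ∈ c.support, b ∈ S) →
      ∃ I : Ideal B, I.IsPrime ∧ 0 ≤ dval I c := by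
    intro c h1 h2
    obtain ⟨x, hx, F', hF', hxF', h3⟩ := H c.support c h2 h1
    obtain ⟨I, hI, hxI⟩ := exists_prime hx
    refine ⟨I, hI, ?_⟩
    have e : dval I c = ∑ b ∈ c.support, c b * phi I b - δ * ∑ b ∈ c.support, c b := by
      show Finsupp.linearCombination ℝ (fun b => phi I b - δ) c = _
      rw [Finsupp.linearCombination_apply, Finsupp.sum, Finset.mul_sum, ← Finset.sum_sub_distrib]
      refine Finset.sum_congr rfl fun b _ => ?_
      rw [smul_eq_mul]; ring
    have h4 : ∑ b ∈ F', c b ≤ ∑ b ∈ c.support, c b * phi I b := by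
      calc ∑ b ∈ F', c b = ∑ b ∈ F', c b * phi I b := by
            refine Finset.sum_congr rfl fun b hb => ?_
            have : b ∉ I := fun h => hxI (I.lower (hxF' b hb) h)
            rw [phi, if_neg this, mul_one]
        _ ≤ _ := Finset.sum_le_sum_of_subset_of_nonneg hF' fun b _ _ =>
            mul_nonneg (h1 b) (phi_nonneg I b)
    rw [e]
    linarith
  have hne : (Finsupp.single (⊤ : B) (1 : ℝ)) ≠ 0 := by simp
  let f₀ : (B →₀ ℝ) →ₗ.[ℝ] ℝ := LinearPMap.mkSpanSingleton (Finsupp.single (⊤ : B) (1 : ℝ)) 1 hne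
  have hf₀ : ∀ x : f₀.domain, ∃ r : ℝ, (x : B →₀ ℝ) = Finsupp.single (⊤ : B) r ∧ f₀ x = r := by
    rintro ⟨x, hx⟩
    obtain ⟨r, rfl⟩ := Submodule.mem_span_singleton.1 hx
    refine ⟨r, by simp, ?_⟩
    exact (LinearPMap.mkSpanSingleton'_apply _ _ _ _ _).trans (by simp)
  obtain ⟨g, hg1, hg2⟩ := riesz_extension s f₀ (by
      intro x hx
      obtain ⟨r, h1, h2⟩ := hf₀ x
      rw [h2]
      rw [h1, hs] at hx
      obtain ⟨c, h3, h4, h5⟩ := hx
      obtain ⟨I, hI, h6⟩ := key c h3 h4
      have h7 := h5 I hI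
      rw [hval, phi_top hI, mul_one] at h7
      linarith) (by
      intro y
      refine ⟨⟨Finsupp.single (⊤ : B) (∑ b ∈ y.support, |y b|), ?_⟩, ?_⟩
      · refine Submodule.mem_span_singleton.2 ⟨∑ b ∈ y.support, |y b|, by simp⟩
      · apply hs0
        intro I hI
        show 0 ≤ val I (Finsupp.single (⊤ : B) (∑ b ∈ y.support, |y b|) + y)
        rw [map_add, hval, phi_top hI, mul_one]
        have e : val I y = ∑ b ∈ y.support, y b * phi I b := by
          show Finsupp.linearCombination ℝ (phi I) y = _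
          rw [Finsupp.linearCombination_apply, Finsupp.sum]
          rfl
        rw [e, ← Finset.sum_add_distrib]
        refine Finset.sum_nonneg fun b _ => ?_
        have h1 := phi_nonneg I b
        have h2 := phi_le I b
        have h3 := neg_abs_le (y b)
        have h4 := abs_nonneg (y b)
        nlinarith)
  refine ⟨fun b => g (Finsupp.single b 1), ⟨fun b => ?_, fun a b hab => ?_⟩, ?_, fun b hb => ?_⟩
  · exact hg2 _ (hs0 _ fun I _ => by rw [hval, one_mul]; exact phi_nonneg I b)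
  · have h1 : 0 ≤ g (Finsupp.single (a ⊔ b) 1 - (Finsupp.single a 1 + Finsupp.single b 1)) :=
      hg2 _ (hs0 _ fun I hI => by
        rw [map_sub, map_add, hval, hval, hval, phi_add hI hab]
        exact le_of_eq (by ring))
    have h2 : 0 ≤ g ((Finsupp.single a 1 + Finsupp.single b 1) - Finsupp.single (a ⊔ b) 1) :=
      hg2 _ (hs0 _ fun I hI => by
        rw [map_sub, map_add, hval, hval, hval, phi_add hI hab]
        exact le_of_eq (by ring))
    rw [map_sub, map_add] at h1 h2
    show g (Finsupp.single (a ⊔ b) 1) = g (Finsupp.single a 1) + g (Finsupp.single b 1)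
    linarith
  · have h1 := hg1 ⟨Finsupp.single (⊤ : B) (1 : ℝ), Submodule.mem_span_singleton_self _⟩
    obtain ⟨r, h2, h3⟩ := hf₀ ⟨Finsupp.single (⊤ : B) (1 : ℝ), Submodule.mem_span_singleton_self _⟩
    have h4 : (1 : ℝ) = r := Finsupp.single_injective _ h2
    show g (Finsupp.single (⊤ : B) (1 : ℝ)) = 1
    rw [h1, h3, ← h4]
  · have h1 : 0 ≤ g (Finsupp.single b 1 - Finsupp.single (⊤ : B) δ) := by
      refine hg2 _ ((hs _).2 ⟨Finsupp.single b 1, fun b' => ?_, fun b' hb' => ?_, fun I hI => ?_⟩)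
      · rw [Finsupp.single_apply]; split_ifs <;> norm_num
      · have := Finsupp.support_single_subset hb'
        rw [Finset.mem_singleton] at this
        rw [this]; exact hb
      · rw [hdval, map_sub, hval, hval, phi_top hI]
        exact le_of_eq (by ring)
    have h2 : g (Finsupp.single (⊤ : B) δ) = δ * g (Finsupp.single (⊤ : B) 1) := by
      rw [← smul_eq_mul, ← map_smul]
      simp
    have h3 : g (Finsupp.single (⊤ : B) (1 : ℝ)) = 1 := by
      have h1 := hg1 ⟨Finsupp.single (⊤ : B) (1 : ℝ), Submodule.mem_span_singleton_self _⟩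
      obtain ⟨r, h2, h3⟩ :=
        hf₀ ⟨Finsupp.single (⊤ : B) (1 : ℝ), Submodule.mem_span_singleton_self _⟩
      have h4 : (1 : ℝ) = r := Finsupp.single_injective _ h2
      rw [h1, h3, ← h4]
    rw [map_sub, h2, h3] at h1
    show δ ≤ g (Finsupp.single b 1)
    linarith

end kelley

section measure

variable {A : Type u} [BooleanAlgebra A]

theorem IsMeasure.bot {μ : A → ℝ} (h : IsMeasure μ) : μ ⊥ = 0 := by
  have h1 := h.sum (fun _ => ⊥) ⊥ (fun i j _ => disjoint_bot_left) (by
    rw [Set.range_const]; exact isLUB_singleton)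
  exact (summable_const_iff _).1 h1.summable

theorem IsMeasure.finAdd {μ : A → ℝ} (h : IsMeasure μ) : FinAdd μ := by
  refine ⟨h.nonneg, fun a b hab => ?_⟩
  have h1 := h.sum (fun n => if n = 0 then a else if n = 1 then b else ⊥) (a ⊔ b) (by
    intro i j hij
    show Disjoint _ _
    by_cases hi0 : i = 0 <;> by_cases hi1 : i = 1 <;> by_cases hj0 : j = 0 <;>
      by_cases hj1 : j = 1 <;> simp_all
    exact hab.symm) (by
    constructor
    · rintro _ ⟨n, rfl⟩
      show (if n = 0 then a else if n = 1 then b else ⊥) ≤ a ⊔ b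
      split_ifs
      · exact le_sup_left
      · exact le_sup_right
      · exact bot_le
    · intro c hc
      have h0 := hc ⟨0, rfl⟩
      have h1 := hc ⟨1, rfl⟩
      simp only [if_true, one_ne_zero, if_false] at h0 h1
      exact sup_le h0 h1)
  have h2 : HasSum (fun n : ℕ => μ (if n = 0 then a else if n = 1 then b else ⊥))
      (∑ n ∈ Finset.range 2, μ (if n = 0 then a else if n = 1 then b else ⊥)) := by
    apply hasSum_sum_of_ne_finset_zero
    intro n hn
    rw [Finset.mem_range] at hn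
    rw [if_neg (by omega), if_neg (by omega), h.bot]
  rw [h1.unique h2, Finset.sum_range_succ, Finset.sum_range_one]
  simp

/-- countable subadditivity -/
theorem IsMeasure.subadd {μ : A → ℝ} (h : IsMeasure μ) (a : ℕ → A) (s : A)
    (hs : IsLUB (Set.range a) s) {t : ℕ → ℝ} (ht : ∀ n, μ (a n) ≤ t n) {T : ℝ} (hT : HasSum t T) :
    μ s ≤ T := by
  have h1 := h.sum (disjointed a) s (disjoint_disjointed a) (by
    have e : upperBounds (Set.range (disjointed a)) = upperBounds (Set.range a) := by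
      rw [← upperBounds_range_partialSups (disjointed a), partialSups_disjointed,
        upperBounds_range_partialSups]
    unfold IsLUB at hs ⊢
    rw [e]; exact hs)
  exact hasSum_le (fun n => (h.finAdd.mono (disjointed_le a n)).trans (ht n)) h1 hT

end measure

section main

variable {B : Type u} [CompleteBooleanAlgebra B]

theorem sdiff_iSup' (b : B) (a : ℕ → B) : b \ ⨆ n, a n = ⨅ n, b \ a n := by
  rw [sdiff_eq, compl_iSup, inf_iInf]
  exact iInf_congr fun n => by rw [sdiff_eq]

/-- on a complete subalgebra with a measure the outer measure is absolutely continuous -/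
theorem abs_cont {m : B → ℝ} (hm : IsContinuousOuterMeasure m) {S : BooleanSubalgebra B}
    (hS : IsCompleteSub S) {μ : S → ℝ} (hμ : IsMeasure μ) {ε : ℝ} (hε : 0 < ε) :
    ∃ δ : ℝ, 0 < δ ∧ ∀ c : S, ε ≤ m c → δ ≤ μ c := by
  by_contra hcon
  push Not at hcon
  have h1 : ∀ k : ℕ, ∃ c : S, ε ≤ m c ∧ μ c < (1 / 2) ^ k := fun k => hcon _ (by positivity)
  choose c hc1 hc2 using h1
  have hsup : ∀ a : ℕ → S, (⨆ n, (a n : B)) ∈ S := fun a =>
    (hS (Set.range fun n => (a n : B)) (by rintro _ ⟨n, rfl⟩; exact (a n).2)).1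
  have hinf : ∀ a : ℕ → S, (⨅ n, (a n : B)) ∈ S := fun a =>
    (hS (Set.range fun n => (a n : B)) (by rintro _ ⟨n, rfl⟩; exact (a n).2)).2
  let d : ℕ → S := fun k => ⟨⨆ j, (c (k + j) : B), hsup fun j => c (k + j)⟩
  have hd : ∀ k, (d k : B) = ⨆ j, (c (k + j) : B) := fun k => rfl
  have hdμ : ∀ k, μ (d k) ≤ (1 / 2) ^ k * 2 := by
    intro k
    refine hμ.subadd (fun j => c (k + j)) (d k) ⟨?_, ?_⟩ (t := fun j => (1 / 2) ^ k * (1 / 2) ^ j)
      (fun j => ?_) ?_
    · rintro _ ⟨j, rfl⟩
      show (c (k + j) : B) ≤ d k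
      exact le_iSup (fun j => (c (k + j) : B)) j
    · intro e he
      show (d k : B) ≤ e
      exact iSup_le fun j => he ⟨j, rfl⟩
    · rw [← pow_add]; exact (hc2 _).le
    · exact hasSum_geometric_two.mul_left _
  have hanti : Antitone fun k => (d k : B) := by
    refine antitone_nat_of_succ_le fun k => ?_
    refine iSup_le fun j => ?_
    have := le_iSup (fun j => (c (k + j) : B)) (1 + j)
    rw [← add_assoc] at this
    exact this
  let e : S := ⟨⨅ k, (d k : B), hinf d⟩
  have he : μ e = 0 := by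
    refine le_antisymm ?_ (hμ.nonneg e)
    have h2 : Tendsto (fun k : ℕ => (1 / 2 : ℝ) ^ k * 2) atTop (𝓝 (0 * 2)) :=
      (tendsto_pow_atTop_nhds_zero_of_lt_one (by norm_num) (by norm_num)).mul_const 2
    rw [zero_mul] at h2
    refine ge_of_tendsto' h2 fun k => ?_
    refine le_trans (hμ.finAdd.mono ?_) (hdμ k)
    show (e : B) ≤ d k
    exact iInf_le _ k
  have he' : (⨅ k, (d k : B)) = ⊥ := by
    have : e = ⊥ := by
      by_contra h
      have := hμ.pos e h
      linarith
    have h2 := congrArg (Subtype.val) this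
    exact h2
  have h3 := hm.cont _ hanti he'
  have h4 : ∀ k, ε ≤ m (d k) := by
    intro k
    refine (hc1 k).trans (hm.mono _ _ ?_)
    have := le_iSup (fun j => (c (k + j) : B)) 0
    exact this
  have h5 : ε ≤ 0 := ge_of_tendsto' h3 h4
  linarith

/-- the complete subalgebra generated by a set -/
theorem exists_gen (G : Set B) :
    ∃ C : BooleanSubalgebra B,
      IsLeast {S' : BooleanSubalgebra B | IsCompleteSub S' ∧ G ⊆ (S' : Set B)} C := by
  refine ⟨sInf {S' : BooleanSubalgebra B | IsCompleteSub S' ∧ G ⊆ (S' : Set B)}, ⟨?_, ?_⟩, ?_⟩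
  · intro T hT
    constructor
    · rw [BooleanSubalgebra.mem_sInf]
      intro L hL
      exact (hL.1 T fun x hx => BooleanSubalgebra.mem_sInf.1 (hT hx) L hL).1
    · rw [BooleanSubalgebra.mem_sInf]
      intro L hL
      exact (hL.1 T fun x hx => BooleanSubalgebra.mem_sInf.1 (hT hx) L hL).2
  · intro x hx
    show x ∈ sInf {S' : BooleanSubalgebra B | IsCompleteSub S' ∧ G ⊆ (S' : Set B)}
    rw [BooleanSubalgebra.mem_sInf]
    intro L hL
    exact hL.2 hx
  · intro L hL x hx
    exact BooleanSubalgebra.mem_sInf.1 hx L hL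

/-- the intersection number is positive -/
theorem inter_pos [Nontrivial B]
    (hsub : ∀ S : BooleanSubalgebra B, IsCompleteSub S → IsCountablyGenerated S →
      ∃ μ : S → ℝ, IsMeasure μ)
    {m : B → ℝ} (hm : IsContinuousOuterMeasure m) {ε : ℝ} (hε : 0 < ε) :
    ∃ δ : ℝ, 0 < δ ∧ ∀ (F : Finset B) (w : B → ℝ), (∀ b ∈ F, ε ≤ m b) → (∀ b, 0 ≤ w b) →
      ∃ x : B, x ≠ ⊥ ∧ ∃ F' ⊆ F, (∀ i ∈ F', x ≤ i) ∧ δ * ∑ b ∈ F, w b ≤ ∑ b ∈ F', w b := by
  classical
  by_contra hcon
  push Not at hcon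
  have h1 : ∀ k : ℕ, ∃ (F : Finset B) (w : B → ℝ), (∀ b ∈ F, ε ≤ m b) ∧ (∀ b, 0 ≤ w b) ∧
      ∀ x : B, x ≠ ⊥ → ∀ F' ⊆ F, (∀ i ∈ F', x ≤ i) →
        ∑ b ∈ F', w b < 1 / ((k : ℝ) + 1) * ∑ b ∈ F, w b :=
    fun k => hcon _ (by positivity)
  choose F w hF hw hlt using h1
  obtain ⟨C, hC⟩ := exists_gen (⋃ k, (F k : Set B))
  obtain ⟨μ, hμ⟩ := hsub C hC.1.1 ⟨_, Set.countable_iUnion fun k => (F k).countable_toSet, hC⟩
  obtain ⟨δ, hδ, hδc⟩ := abs_cont hm hC.1.1 hμ hε
  have hmem : ∀ k, ∀ b ∈ F k, b ∈ C := fun k b hb => hC.1.2 (Set.mem_iUnion.2 ⟨k, hb⟩)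
  let l : B → C := fun b => if h : b ∈ C then ⟨b, h⟩ else ⊥
  have hl : ∀ b, b ∈ C → (l b : B) = b := by
    intro b hb
    simp only [l, dif_pos hb]
  have key : ∀ k : ℕ, δ ≤ 1 / ((k : ℝ) + 1) * μ ⊤ := by
    intro k
    have h2 := hμ.finAdd.comb l (w k) (F k) ⊤ (1 / ((k : ℝ) + 1) * ∑ b ∈ F k, w k b) (by
      intro x hx _ F' hF' hxF'
      refine (hlt k (x : B) ?_ F' hF' ?_).le
      · intro h; apply hx; exact Subtype.ext h
      · intro i hi
        have h3 : (x : B) ≤ l i := hxF' i hi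
        rwa [hl i (hmem k i (hF' hi))] at h3)
    have h3 : δ * ∑ b ∈ F k, w k b ≤ ∑ b ∈ F k, w k b * μ (l b ⊓ ⊤) := by
      rw [Finset.mul_sum]
      refine Finset.sum_le_sum fun b hb => ?_
      rw [inf_top_eq, mul_comm]
      refine mul_le_mul_of_nonneg_left (hδc _ ?_) (hw k b)
      rw [hl b (hmem k b hb)]
      exact hF k b hb
    have h4 : 0 < ∑ b ∈ F k, w k b := by
      have h5 := hlt k ⊤ top_ne_bot ∅ (Finset.empty_subset _) (by simp)
      rw [Finset.sum_empty] at h5
      exact (mul_pos_iff_of_pos_left (by positivity)).1 h5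
    have h6 : δ * ∑ b ∈ F k, w k b ≤ (1 / ((k : ℝ) + 1) * μ ⊤) * ∑ b ∈ F k, w k b := by
      linarith
    exact le_of_mul_le_mul_right h6 h4
  have h7 : Tendsto (fun k : ℕ => 1 / ((k : ℝ) + 1) * μ ⊤) atTop (𝓝 (0 * μ ⊤)) :=
    tendsto_one_div_add_atTop_nhds_zero_nat.mul_const _
  rw [zero_mul] at h7
  have := ge_of_tendsto' h7 key
  linarith

/-- a strictly positive finitely additive measure -/
theorem exists_nu [Nontrivial B]
    (hsub : ∀ S : BooleanSubalgebra B, IsCompleteSub S → IsCountablyGenerated S →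
      ∃ μ : S → ℝ, IsMeasure μ)
    {m : B → ℝ} (hm : IsContinuousOuterMeasure m) :
    ∃ ν : B → ℝ, FinAdd ν ∧ ∀ b, b ≠ ⊥ → 0 < ν b := by
  have h1 : ∀ k : ℕ, ∃ (δ : ℝ) (ν : B → ℝ), 0 < δ ∧ FinAdd ν ∧ ν ⊤ = 1 ∧
      ∀ b, 1 / ((k : ℝ) + 1) ≤ m b → δ ≤ ν b := by
    intro k
    obtain ⟨δ, hδ, h2⟩ := inter_pos hsub hm (ε := 1 / ((k : ℝ) + 1)) (by positivity)
    obtain ⟨ν, h3, h4, h5⟩ := kelley {b : B | 1 / ((k : ℝ) + 1) ≤ m b} δ h2
    exact ⟨δ, ν, hδ, h3, h4, h5⟩
  choose δ ν hδ hν htop hνδ using h1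
  have hle : ∀ k b, ν k b ≤ 1 := fun k b => by
    rw [← htop k]; exact (hν k).mono le_top
  have hsum : ∀ b, Summable fun k : ℕ => (1 / 2 : ℝ) ^ k * ν k b := by
    intro b
    refine Summable.of_nonneg_of_le (fun k => mul_nonneg (by positivity) ((hν k).nonneg b))
      (fun k => ?_) summable_geometric_two
    exact mul_le_of_le_one_right (by positivity) (hle k b)
  refine ⟨fun b => ∑' k : ℕ, (1 / 2 : ℝ) ^ k * ν k b, ⟨fun b => ?_, fun a b hab => ?_⟩,
    fun b hb => ?_⟩
  · exact tsum_nonneg fun k => mul_nonneg (by positivity) ((hν k).nonneg b)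
  · show ∑' k : ℕ, (1 / 2 : ℝ) ^ k * ν k (a ⊔ b) = _
    rw [← (hsum a).tsum_add (hsum b)]
    refine tsum_congr fun k => ?_
    rw [(hν k).add a b hab, mul_add]
  · obtain ⟨k, hk⟩ := exists_nat_one_div_lt (hm.pos b hb)
    have h2 := hνδ k b hk.le
    have h3 : 0 < (1 / 2 : ℝ) ^ k * ν k b := mul_pos (by positivity) ((hδ k).trans_le h2)
    exact h3.trans_le ((hsum b).le_tsum k fun j _ => mul_nonneg (by positivity) ((hν j).nonneg b))

/-- the outer measure is countably subadditive -/
theorem m_iSup {m : B → ℝ} (hm : IsContinuousOuterMeasure m) (d : ℕ → B) (t : ℕ → ℝ) (T : ℝ)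
    (ht : ∀ n, m (d n) ≤ t n) (hT : ∀ n, ∑ k ∈ Finset.range n, t k ≤ T) : m (⨆ n, d n) ≤ T := by
  have h1 : ∀ n, m (partialSups d n) ≤ ∑ k ∈ Finset.range (n + 1), t k := by
    intro n
    induction n with
    | zero => rw [partialSups_zero]; simpa using ht 0
    | succ n ih =>
      have h2 : partialSups d (n + 1) = partialSups d n ⊔ d (n + 1) := partialSups_succ d n
      rw [h2, Finset.sum_range_succ]
      exact (hm.subadd _ _).trans (add_le_add ih (ht _))
  have h2 : ∀ n, m (⨆ n, d n) ≤ T + m ((⨆ n, d n) \ partialSups d n) := by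
    intro n
    have h3 : (⨆ n, d n) = partialSups d n ⊔ ((⨆ n, d n) \ partialSups d n) := by
      rw [sup_sdiff_self_right, sup_eq_right.2]
      exact partialSups_le _ _ _ fun j _ => le_iSup d j
    calc m (⨆ n, d n) = m (partialSups d n ⊔ ((⨆ n, d n) \ partialSups d n)) := by rw [← h3]
      _ ≤ _ := (hm.subadd _ _).trans (add_le_add ((h1 n).trans (hT _)) le_rfl)
  have h4 : Tendsto (fun n => m ((⨆ n, d n) \ partialSups d n)) atTop (𝓝 0) := by
    refine hm.cont _ (fun i j hij => sdiff_le_sdiff_left ((partialSups d).monotone hij)) ?_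
    rw [← iSup_partialSups_eq d, ← sdiff_iSup', sdiff_self]
  have h5 := (tendsto_const_nhds (x := T)).add h4
  rw [add_zero] at h5
  exact ge_of_tendsto' h5 h2

end main

section countable

variable {B : Type u} [CompleteBooleanAlgebra B]

/-- `r` bounds the values of `ν` along a sequence which increases to `b` -/
def L (ν : B → ℝ) (b : B) (r : ℝ) : Prop :=
  ∃ a : ℕ → B, Monotone a ∧ ⨆ n, a n = b ∧ ∀ n, ν (a n) ≤ r

/-- the countably additive part -/
noncomputable def lam (ν : B → ℝ) (b : B) : ℝ := sInf {r | L ν b r}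

variable {ν : B → ℝ} (hν : FinAdd ν)

include hν

theorem L_nonneg {b : B} {r : ℝ} (h : L ν b r) : 0 ≤ r := by
  obtain ⟨a, -, -, h⟩ := h
  exact (hν.nonneg (a 0)).trans (h 0)

omit hν in
theorem L_self (b : B) : L ν b (ν b) :=
  ⟨fun _ => b, monotone_const, ciSup_const, fun _ => le_rfl⟩

theorem bdd (b : B) : BddBelow {r | L ν b r} := ⟨0, fun _ h => L_nonneg hν h⟩

theorem lam_le {b : B} {r : ℝ} (h : L ν b r) : lam ν b ≤ r := csInf_le (bdd hν b) h

theorem lam_nonneg (b : B) : 0 ≤ lam ν b :=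
  le_csInf ⟨_, L_self b⟩ fun _ h => L_nonneg hν h

omit hν in
theorem exists_L (b : B) {η : ℝ} (hη : 0 < η) : ∃ r, L ν b r ∧ r < lam ν b + η :=
  exists_lt_of_csInf_lt ⟨_, L_self b⟩ (lt_add_of_pos_right _ hη)

theorem lam_super {a b : B} (hab : Disjoint a b) : lam ν a + lam ν b ≤ lam ν (a ⊔ b) := by
  refine le_csInf ⟨_, L_self _⟩ ?_
  rintro r ⟨c, hc, hcs, hcr⟩
  have h1 : ∀ n k, ν (c n ⊓ a) + ν (c k ⊓ b) ≤ r := by
    intro n k
    have h2 : ν (c n ⊓ a) ≤ ν (c (max n k) ⊓ a) :=
      hν.mono (inf_le_inf_right _ (hc (le_max_left _ _)))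
    have h3 : ν (c k ⊓ b) ≤ ν (c (max n k) ⊓ b) :=
      hν.mono (inf_le_inf_right _ (hc (le_max_right _ _)))
    have h4 := hν.add (c (max n k) ⊓ a) (c (max n k) ⊓ b)
      (hab.mono inf_le_right inf_le_right)
    have h5 : ν (c (max n k) ⊓ a ⊔ c (max n k) ⊓ b) ≤ ν (c (max n k)) :=
      hν.mono (sup_le inf_le_left inf_le_left)
    have h6 := hcr (max n k)
    linarith
  have ba : BddAbove (Set.range fun n => ν (c n ⊓ a)) := by
    refine ⟨r, ?_⟩
    rintro _ ⟨n, rfl⟩
    have := h1 n 0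
    have := hν.nonneg (c 0 ⊓ b)
    show ν (c n ⊓ a) ≤ r
    linarith
  have bb : BddAbove (Set.range fun n => ν (c n ⊓ b)) := by
    refine ⟨r, ?_⟩
    rintro _ ⟨n, rfl⟩
    have := h1 0 n
    have := hν.nonneg (c 0 ⊓ a)
    show ν (c n ⊓ b) ≤ r
    linarith
  have hA : lam ν a ≤ ⨆ n, ν (c n ⊓ a) := by
    refine lam_le hν ⟨fun n => c n ⊓ a, fun i j hij => inf_le_inf_right _ (hc hij), ?_,
      fun n => le_ciSup ba n⟩
    rw [← iSup_inf_eq, hcs, inf_eq_right]
    exact le_sup_left
  have hB : lam ν b ≤ ⨆ n, ν (c n ⊓ b) := by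
    refine lam_le hν ⟨fun n => c n ⊓ b, fun i j hij => inf_le_inf_right _ (hc hij), ?_,
      fun n => le_ciSup bb n⟩
    rw [← iSup_inf_eq, hcs, inf_eq_right]
    exact le_sup_right
  have h2 : ∀ k, (⨆ n, ν (c n ⊓ a)) ≤ r - ν (c k ⊓ b) := fun k =>
    ciSup_le fun n => by have := h1 n k; linarith
  have h3 : (⨆ n, ν (c n ⊓ b)) ≤ r - ⨆ n, ν (c n ⊓ a) :=
    ciSup_le fun k => by have := h2 k; linarith
  linarith

theorem lam_mono {a b : B} (hab : a ≤ b) : lam ν a ≤ lam ν b := by
  have h1 := lam_super hν (disjoint_sdiff_self_right : Disjoint a (b \ a))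
  rw [sup_sdiff_self_right, sup_eq_right.2 hab] at h1
  have := lam_nonneg hν (b \ a)
  linarith

theorem lam_fin (e : ℕ → B) (he : Pairwise (Function.onFun Disjoint e)) (n : ℕ) :
    ∑ k ∈ Finset.range n, lam ν (e k) ≤ lam ν ((Finset.range n).sup e) := by
  induction n with
  | zero => simpa using lam_nonneg hν ⊥
  | succ n ih =>
    rw [Finset.sum_range_succ, Finset.range_add_one, Finset.sup_insert, sup_comm]
    refine le_trans (add_le_add ih le_rfl) (lam_super hν ?_)
    rw [Finset.disjoint_sup_left]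
    intro i hi
    exact he (by rw [Finset.mem_range] at hi; omega)

theorem lam_sum (e : ℕ → B) (he : Pairwise (Function.onFun Disjoint e)) :
    HasSum (fun n => lam ν (e n)) (lam ν (⨆ n, e n)) := by
  have hle : ∀ n, ∑ k ∈ Finset.range n, lam ν (e k) ≤ lam ν (⨆ n, e n) := fun n =>
    (lam_fin hν e he n).trans (lam_mono hν (Finset.sup_le fun i _ => le_iSup e i))
  have hsum : Summable fun n => lam ν (e n) :=
    summable_of_sum_range_le (fun n => lam_nonneg hν _) hle
  have h1 : lam ν (⨆ n, e n) ≤ ∑' n, lam ν (e n) := by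
    refine le_of_forall_pos_le_add fun η hη => ?_
    have h2 : ∀ n : ℕ, ∃ r, L ν (e n) r ∧ r < lam ν (e n) + η / 2 * (1 / 2) ^ n :=
      fun n => exists_L _ (by positivity)
    choose r hr hrlt using h2
    choose a ha has har using hr
    have hgs : Summable fun n : ℕ => η / 2 * (1 / 2 : ℝ) ^ n :=
      summable_geometric_two.mul_left _
    have hgt : ∑' n : ℕ, η / 2 * (1 / 2 : ℝ) ^ n = η := by
      rw [tsum_mul_left, tsum_geometric_two]; ring
    have hbd : ∀ k, ∑ n ∈ Finset.range k, r n ≤ ∑' n, lam ν (e n) + η := by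
      intro k
      calc ∑ n ∈ Finset.range k, r n
          ≤ ∑ n ∈ Finset.range k, (lam ν (e n) + η / 2 * (1 / 2) ^ n) :=
            Finset.sum_le_sum fun n _ => (hrlt n).le
        _ ≤ ∑' n, (lam ν (e n) + η / 2 * (1 / 2) ^ n) :=
            (hsum.add hgs).sum_le_tsum _ fun n _ =>
              add_nonneg (lam_nonneg hν _) (by positivity)
        _ = _ := by rw [hsum.tsum_add hgs, hgt]
    refine lam_le hν ⟨fun k => (Finset.range k).sup fun n => a n k, ?_, ?_, fun k => ?_⟩
    · intro i j hij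
      refine Finset.sup_le fun n hn => ?_
      refine (ha n hij).trans ?_
      exact Finset.le_sup (f := fun n => a n j)
        (Finset.mem_range.2 ((Finset.mem_range.1 hn).trans_le hij))
    · refine le_antisymm (iSup_le fun k => Finset.sup_le fun n _ => ?_) (iSup_le fun n => ?_)
      · refine le_trans ?_ (le_iSup e n)
        rw [← has n]; exact le_iSup (a n) k
      · rw [← has n]
        refine iSup_le fun k => ?_
        refine le_trans ?_ (le_iSup _ (max (n + 1) k))
        refine (ha n (le_max_right (n + 1) k)).trans ?_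
        exact Finset.le_sup (f := fun n' => a n' (max (n + 1) k))
          (Finset.mem_range.2 (lt_of_lt_of_le (Nat.lt_succ_self n) (le_max_left _ _)))
    · refine le_trans ?_ (hbd k)
      have h3 : ∀ s : Finset ℕ, ν (s.sup fun n => a n k) ≤ ∑ n ∈ s, r n := by
        intro s
        induction s using Finset.induction_on with
        | empty => rw [Finset.sup_empty, Finset.sum_empty, hν.bot]
        | insert i s hi ih =>
          rw [Finset.sup_insert, Finset.sum_insert hi]
          exact (hν.sub _ _).trans (add_le_add (har i k) ih)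
      exact h3 _
  have h2 : ∑' n, lam ν (e n) ≤ lam ν (⨆ n, e n) :=
    Real.tsum_le_of_sum_range_le (fun n => lam_nonneg hν _) hle
  rw [← le_antisymm h2 h1]
  exact hsum.hasSum

theorem lam_pos {m : B → ℝ} (hm : IsContinuousOuterMeasure m) (hpos : ∀ b, b ≠ ⊥ → 0 < ν b)
    {b : B} (hb : b ≠ ⊥) : 0 < lam ν b := by
  by_contra hcon
  have h0 : lam ν b = 0 := le_antisymm (not_lt.1 hcon) (lam_nonneg hν b)
  have h1 : ∀ n : ℕ, ∃ r, L ν b r ∧ r < lam ν b + (1 / 2) ^ n := fun n =>
    exists_L _ (by positivity)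
  choose r hr hrlt using h1
  choose a ha has har using hr
  have hmb := hm.pos b hb
  have h2 : ∀ n : ℕ, ∃ k, m (b \ a n k) < m b / 4 * (1 / 2) ^ n := by
    intro n
    have h3 : Tendsto (fun k => m (b \ a n k)) atTop (𝓝 0) := by
      refine hm.cont _ (fun i j hij => sdiff_le_sdiff_left (ha n hij)) ?_
      rw [← sdiff_iSup', has n, sdiff_self]
    exact ((tendsto_order.1 h3).2 _ (by positivity)).exists
  choose k hk using h2
  have h3 : m (⨆ n, b \ a n (k n)) ≤ m b / 2 := by
    refine m_iSup hm _ (fun n => m b / 4 * (1 / 2) ^ n) _ (fun n => (hk n).le) fun n => ?_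
    have h4 : Summable fun n : ℕ => m b / 4 * (1 / 2 : ℝ) ^ n :=
      summable_geometric_two.mul_left _
    refine (h4.sum_le_tsum _ fun i _ => by positivity).trans ?_
    rw [tsum_mul_left, tsum_geometric_two]
    linarith
  set c := b \ ⨆ n, b \ a n (k n) with hc
  have h4 : m b ≤ m c + m (⨆ n, b \ a n (k n)) := by
    refine (hm.mono _ _ ?_).trans (hm.subadd _ _)
    rw [hc]
    exact le_sdiff_sup
  have hc0 : c ≠ ⊥ := by
    intro h
    rw [h, hm.zero] at h4
    linarith
  have h5 : ∀ n, ν c ≤ (1 / 2) ^ n := by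
    intro n
    have h6 : c ≤ a n (k n) := by
      have h7 : c ≤ b \ (b \ a n (k n)) :=
        sdiff_le_sdiff_left (le_iSup (fun n => b \ a n (k n)) n)
      rw [sdiff_sdiff_right_self] at h7
      exact h7.trans inf_le_right
    have h8 := hrlt n
    rw [h0, zero_add] at h8
    exact (hν.mono h6).trans ((har n (k n)).trans h8.le)
  have h6 : Tendsto (fun n : ℕ => (1 / 2 : ℝ) ^ n) atTop (𝓝 0) :=
    tendsto_pow_atTop_nhds_zero_of_lt_one (by norm_num) (by norm_num)
  have h7 := ge_of_tendsto' h6 h5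
  have h8 := hpos c hc0
  linarith

end countable

/-- **Measures from countably generated subalgebras.** Let `B` be a complete Boolean algebra all of
whose countably generated complete subalgebras admit a measure. If `B` carries a continuous outer
measure, then `B` admits a measure. -/
theorem result {B : Type u} [CompleteBooleanAlgebra B]
    (hsub : ∀ S : BooleanSubalgebra B, IsCompleteSub S → IsCountablyGenerated S →
      ∃ μ : S → ℝ, IsMeasure μ)
    (hm : ∃ m : B → ℝ, IsContinuousOuterMeasure m) :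
    ∃ μ : B → ℝ, IsMeasure μ := by
  obtain ⟨m, hm⟩ := hm
  rcases subsingleton_or_nontrivial B with h | h
  · refine ⟨fun _ => 0, fun _ => le_rfl, fun a ha => absurd (Subsingleton.elim a ⊥) ha,
      fun _ _ _ _ => hasSum_zero⟩
  · obtain ⟨ν, hν, hpos⟩ := exists_nu hsub hm
    refine ⟨lam ν, lam_nonneg hν, fun a ha => lam_pos hν hm hpos ha, fun a s ha hs => ?_⟩
    rw [← hs.iSup_eq]
    exact lam_sum hν a ha

end Pool.Agent.Results.MP_2d6919_lc.MeasureFromSubalgebras
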